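import Pool.Agent.N659.HB.Stm5
import Pool.Agent.N768.HBChk

/-!
Project NP (helper659), leaf CHK2: the chain from the gap for one sequence of laws (adaptation of
HB/CHK of helper768).
-/

set_option autoImplicit false

namespace Pool.Agent.N607.NP.Chk2

open MeasureTheory Filter Pool.Agent.W792.LL Pool.Agent.W792.WA Pool.Agent.W792.WA.Ch
  Pool.Agent.W792.WA.ChK Pool.Agent.N659.HB Pool.Agent.N768.HBChk
open scoped Topology

noncomputable section

/-- CHK2 -/
theorem main (hX : S_CX) (hUU : S_UUC) (hL : S_SCL) (hZ : S_ZF) (hCay : S_CAY)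
    (hM : S_MZP) (hU : S_UNI) (hS : S_STEP) : S_CHK2 := by
  intro ψ hψ d ν hν K r σ ρ hρ1 hd hv hr hσ hρ2 hρ3' hρ4 hbase0
  set l : ℕ → ℝ := fun n => r * (1 / 16) ^ n with hl
  set T : ℕ → ℝ := fun n => 2 * r * (1 / 16) ^ n with hT
  have hl0 : ∀ n, 0 < l n := fun n => by simp only [hl]; positivity
  have hTp : ∀ n, 0 ≤ T n := fun n => by simp only [hT]; positivity
  have hTT : ∀ n, l n + T (n + 1) ≤ T n := by
    intro n
    simp only [hT, hl]
    rw [pow_succ]
    have : 0 < r * (1 / 16 : ℝ) ^ n := by positivity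
    linarith
  have hbase : GapK ν (ρ 0) (kg K 0) σ := by
    intro z hz s hs
    rw [kg_zero] at hs
    exact hbase0 z hz s hs
  obtain ⟨x, hx⟩ := exists_seq (α := C(ℝ, ℝ) × ℝ)
    (fun n a => InvK ν K ρ σ n a ∧ (n = 0 → a.1 = 0))
    (fun n a b => RelK ν K ψ l ρ n a b) (by
      have := hρ1 0
      obtain ⟨q, hq0, hq1, hq2⟩ := (hU ν d (ρ 0) (T 0) σ (kg K 0) hv (hρ3' 0)
        (hρ4 0) hσ hbase).2.1
      have hq3 : 0 < (1 - q ^ 2) / 8 := by
        have : q ^ 2 < 1 := by nlinarith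
        linarith
      have hq4 : (1 - q ^ 2) / 8 ≤ 1 := by nlinarith
      refine ⟨(0, (1 - q ^ 2) / 8), ⟨?_, hq3, hq4, q, hq0, hq1, le_rfl, hq2⟩, fun _ => rfl⟩
      have e : σ * (1 / 2 + 1 / 2 ^ (0 + 1)) = σ := by ring
      rw [e]
      exact hbase) (by
      intro n a ha
      obtain ⟨b, hb1, hb2⟩ := step_invK hU hS hd hψ hv hl0 hρ1 hρ2 hρ3' hρ4 hσ n a ha.1
      exact ⟨b, ⟨hb1, fun h => absurd h (Nat.succ_ne_zero n)⟩, hb2⟩)
  have hMe : ∀ n, ∃ M : ℕ, (x (n + 1)).1 = nx ψ (x n).1 (l n) M := fun n => (hx n).2.1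
  choose M hMe using hMe
  have hq : ∀ n, ∃ q : ℝ, 0 ≤ q ∧ q < 1 ∧ (x n).2 ≤ (1 - q ^ 2) / 8 ∧
      CtrK ν (ρ n) (kg K (x n).1) q := fun n => (hx n).1.1.2.2.2
  choose q hq0 hq1 hq2 hq3 using hq
  let L : LvK ψ := {
    l := l, T := T, f := fun n => (x n).1, M := M
    hψ := hψ.bound
    hl := hl0
    hT := hTT
    hTp := hTp
    f0 := (hx 0).1.2 rfl
    fs := hMe }
  have hT0 : T 0 = 2 * r := by simp [hT]
  have hTt : Tendsto T atTop (𝓝 0) := by
    have h1 := (tendsto_pow_atTop_nhds_zero_of_lt_one (by norm_num : (0 : ℝ) ≤ 1 / 16)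
      (by norm_num : (1 : ℝ) / 16 < 1)).const_mul (2 * r)
    rw [mul_zero] at h1
    exact h1
  have hsumle : ∑' j, L.l j ≤ 2 * r := by
    refine Real.tsum_le_of_sum_range_le (fun n => (L.hl n).le) fun m => ?_
    have h1 := L.sum_l 0 m
    have h2 := L.hTp (0 + m)
    simp only [zero_add] at h1 h2
    have h3 : L.T 0 = 2 * r := hT0
    linarith
  refine ⟨L.fI, ⟨L.l, L.M, fun j => (L.hl j).le, L.summable_l, hsumle, fun t => rfl⟩, ?_⟩
  let E : CEK ν K := {
    ρ := ρ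
    T := T
    σ := σ / 2
    f := fun n => (x n).1
    fI := L.fI
    B := T 0
    p := fun n => (x n).2
    q := q
    hv := hv
    T_anti := L.T_anti
    hTp := hTp
    hT0 := hTt
    hρ1 := hρ1
    hρ3 := hρ3'
    hρ4 := hρ4
    hσ := by positivity
    gap := by
      intro n z hz s hs
      have h1 := (hx n).1.1.1 z hz s hs
      have h2 : σ / 2 ≤ σ * (1 / 2 + 1 / 2 ^ (n + 1)) := by
        have : 0 < σ * (1 / 2 ^ (n + 1)) := by positivity
        linarith
      linarith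
    hp := fun n => (hx n).1.1.2.1
    anti := fun n => (hx n).2.2.1
    hq0 := hq0
    hq1 := hq1
    hq2 := hq2
    ctr := hq3
    fI_diff := fun n t => L.fI_diff n t
    fI_id := L.fI_id
    f_id := fun n t => L.f_id n t
    rel := fun n => (hx n).2.2.2 }
  exact E.concl hX hUU hL hZ hCay hM hU

end

end Pool.Agent.N607.NP.Chk2
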